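import Mathlib
import Pool.Agent.Lib_helper69.QG.Defs
import Pool.Agent.Lib_helper69.QG.Field
import Pool.Agent.Lib_helper69.QG.Geo
import Pool.Agent.Lib_helper69.QG.TorusDefs
import Pool.Agent.Lib_helper12.HK.Defs

/-!
# Project HK (MP_5fc650_pr), Parts L and M: central limit theorem and link. Definitions.
-/

set_option autoImplicit false

namespace HK

open MeasureTheory QG

/-- the pairing over a finite set -/
def pv {V : Type} (S : Finset V) (l h : V → ℝ) : ℝ := ∑ k ∈ S, l k * h k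

/-- the `l¹` norm over a finite set -/
def n1 {V : Type} (S : Finset V) (l : V → ℝ) : ℝ := ∑ k ∈ S, |l k|

/-- the functional `l` on the `K`-sites as a vector on the even sites -/
noncomputable def kv (n m : ℕ) (S : Finset (ℤ × ℤ)) (l : ℤ × ℤ → ℝ) : Ev n → ℝ :=
  fun y => ∑ k ∈ S, if ke n m k = y then l k else 0

/-- the field on the `K`-sites -/
def kf (n m : ℕ) (a : Ev n → ℝ) (k : ℤ × ℤ) : ℝ := a (ke n m k)

open Classical in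
/-- the average over the square `z + [2 * 2 ^ k, 3 * 2 ^ k) × [0, 2 ^ k)` as a functional -/
noncomputable def bx (z : ℤ × ℤ) (k : ℕ) (x : ℤ × ℤ) : ℝ :=
  if 2 * 2 ^ k ≤ x.1 - z.1 ∧ x.1 - z.1 < 3 * 2 ^ k ∧ 0 ≤ x.2 - z.2 ∧ x.2 - z.2 < 2 ^ k then
    1 / 4 ^ k else 0

/-- two centres with averages at the scales `2 ^ k`, `k + 2 ≤ K` -/
structure AGeo {V : Type} (S : Finset V) (E : (V → ℝ) → ℝ) (K : ℕ) (Cg : ℝ) (z : Fin 2 → V)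
    (lev : Fin 2 → V → ℕ) (ph : Fin 2 → ℕ → V → ℝ) : Prop where
  one_le : 1 ≤ Cg
  nonneg : ∀ h, 0 ≤ E h
  mem : ∀ s, z s ∈ S
  sep : ∀ s s' y, s ≠ s' → lev s y ≤ 2 ^ K → 2 ^ K < lev s' y
  near : ∀ s (h : V → ℝ), (h (z s) - pv S (ph s 0) h) ^ 2 ≤ Cg * E h
  step : ∀ s k k', k ≤ k' → k' + 2 ≤ K → ∀ h : V → ℝ,
    (pv S (ph s k) h - pv S (ph s k') h) ^ 2 ≤ Cg * ((k' : ℝ) - k) * E h
  last : ∀ h : V → ℝ, (pv S (ph 0 (K - 2)) h - pv S (ph 1 (K - 2)) h) ^ 2 ≤ Cg * E h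
  supp : ∀ s k y, k + 2 ≤ K → ph s k y ≠ 0 → y ∈ S ∧ 2 ^ (k + 1) ≤ lev s y ∧ lev s y ≤ 2 ^ (k + 2)
  sum : ∀ s k, k + 2 ≤ K → ∑ y ∈ S, ph s k y = 1
  pos : ∀ s k y, 0 ≤ ph s k y

/-- the blocks of the central limit theorem -/
structure Blk {V : Type} (S : Finset V) (E : (V → ℝ) → ℝ) (K : ℕ) (Cg : ℝ) (z : Fin 2 → V)
    (lev : Fin 2 → V → ℕ) (J : ℕ) (l : Fin (2 * J) → V → ℝ) (s : Fin (2 * J) → Fin 2)
    (ki ko : Fin (2 * J) → ℕ) : Prop where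
  scale : ∀ i, ki i ≤ ko i ∧ ko i ≤ K ∧ (K : ℝ) / (2 * J ^ 5) ≤ (ko i : ℝ) - ki i
  energy : ∀ i (h : V → ℝ), pv S (l i) h ^ 2 ≤ Cg * (K / J) * E h
  inner : ∀ i y, l i y ≠ 0 → y ∈ S ∧ lev (s i) y ≤ 2 ^ (ki i)
  outer : ∀ i j, i < j → ∀ y, l j y ≠ 0 → 2 ^ (ko i) ≤ lev (s i) y
  sum : ∀ i, ∑ y ∈ S, l i y = 0
  norm : ∀ i, n1 S (l i) ≤ 2
  rest : ∀ h : V → ℝ, (h (z 1) - h (z 0) - ∑ i, pv S (l i) h) ^ 2 ≤
    100 * Cg * ((K : ℝ) / J ^ 3 + (J : ℝ) ^ 2) * E h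

/-! ## The hammock surface of the problem -/

open Classical in
/-- the indicator function of the functions with `|φ v - φ w| ≤ 1` on every edge of the torus -/
noncomputable def hamT (n : ℕ) (φ : ZMod (2 * n) × ZMod (2 * n) → ℝ) : ENNReal :=
  if ∀ v, |φ (v + (1, 0)) - φ v| ≤ 1 ∧ |φ (v + (0, 1)) - φ v| ≤ 1 then 1 else 0

/-- the hammock surface measure pinned at `0` -/
noncomputable def muHT (n : ℕ) [NeZero n] : Measure (ZMod (2 * n) × ZMod (2 * n) → ℝ) :=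
  (∫⁻ φ, hamT n φ ∂bsT n)⁻¹ • (bsT n).withDensity (hamT n)

end HK
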