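import Mathlib
import Pool.Agent.Lib_helper69.QG.Geo
import Pool.Agent.Lib_helper69.QG.TorusDefs

/-!
# Project HK (MP_5fc650_pr): convergence in distribution from characteristic functions.
-/

set_option autoImplicit false

namespace HK

open MeasureTheory QG Filter Topology

theorem gen_far_meas (n : ℕ) : Measurable (far n) := by
  unfold far
  fun_prop

open Classical in
/-- the normalisation -/
noncomputable def sdG (ν : (n : ℕ) → [NeZero n] → Measure (Tor n → ℝ)) (N : ℕ) (n : ℕ) : ℝ :=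
  if h : N ≤ n ∧ 2 ≤ n then
    haveI : NeZero n := ⟨by omega⟩
    Real.sqrt (∫ φ, far n φ ^ 2 ∂ν n) else 1

/-- convergence in distribution from the convergence of the characteristic functions -/
theorem clt_of_char (ν : (n : ℕ) → [NeZero n] → Measure (Tor n → ℝ)) (N : ℕ)
    (hp : ∀ (n : ℕ) [NeZero n], N ≤ n → IsProbabilityMeasure (ν n))
    {c C : ℝ} (hc : 0 < c) (hv : ∀ (n : ℕ) [NeZero n], N ≤ n →
      c * Real.log n ≤ ∫ φ, far n φ ^ 2 ∂ν n ∧ ∫ φ, far n φ ^ 2 ∂ν n ≤ C * Real.log n)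
    (hchar : ∀ τ δ : ℝ, 0 < δ → ∃ n0 : ℕ, ∀ (n : ℕ) [NeZero n], n0 ≤ n →
      ‖∫ φ, Complex.exp ((τ / Real.sqrt (∫ φ, far n φ ^ 2 ∂ν n) * far n φ : ℝ) * Complex.I) ∂ν n -
        (Real.exp (-(τ ^ 2 / 2)) : ℝ)‖ ≤ δ) :
    ∃ a : ℕ → ℝ, (∀ n, 0 < a n) ∧
      (∀ (n : ℕ) [NeZero n], N ≤ n → 2 ≤ n → a n ^ 2 = ∫ φ, far n φ ^ 2 ∂ν n) ∧
      (∀ n : ℕ, N ≤ n → 2 ≤ n → c * Real.log n ≤ a n ^ 2 ∧ a n ^ 2 ≤ C * Real.log n) ∧
      ∀ f : BoundedContinuousFunction ℝ ℝ,
        Tendsto (fun n : ℕ => ∫ φ, f (far (n + 1) φ / a (n + 1)) ∂ν (n + 1)) atTop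
          (𝓝 (∫ x, f x ∂ProbabilityTheory.gaussianReal 0 1)) := by
  classical
  have hsd : ∀ (n : ℕ) [NeZero n], N ≤ n → 2 ≤ n →
      sdG ν N n = Real.sqrt (∫ φ, far n φ ^ 2 ∂ν n) := by
    intro n _ h1 h2
    rw [sdG, dif_pos ⟨h1, h2⟩]
  have hpos : ∀ n, 0 < sdG ν N n := by
    intro n
    unfold sdG
    split_ifs with h
    · haveI : NeZero n := ⟨by omega⟩
      have := (hv n h.1).1
      refine Real.sqrt_pos.2 (lt_of_lt_of_le ?_ this)
      refine mul_pos hc (Real.log_pos ?_)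
      exact_mod_cast (by omega : 1 < n)
    · norm_num
  have hsq : ∀ (n : ℕ) [NeZero n], N ≤ n → 2 ≤ n → sdG ν N n ^ 2 = ∫ φ, far n φ ^ 2 ∂ν n := by
    intro n _ h1 h2
    rw [hsd n h1 h2]
    exact Real.sq_sqrt (integral_nonneg fun φ => sq_nonneg _)
  refine ⟨sdG ν N, hpos, hsq, ?_, ?_⟩
  · intro n h1 h2
    haveI : NeZero n := ⟨by omega⟩
    rw [hsq n h1 h2]
    exact hv n h1
  intro f
  have hm : ∀ n : ℕ, Measurable fun φ => far (n + 1) φ / sdG ν N (n + 1) := fun n =>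
    (gen_far_meas (n + 1)).div_const _
  have hex : ∀ n : ℕ, ∃ P : ProbabilityMeasure ℝ, N ≤ n + 1 → 2 ≤ n + 1 → (P : Measure ℝ) =
      (ν (n + 1)).map fun φ => far (n + 1) φ / sdG ν N (n + 1) := by
    intro n
    by_cases h : N ≤ n + 1
    · have h0 := hp (n + 1) h
      exact ⟨⟨(ν (n + 1)).map fun φ => far (n + 1) φ / sdG ν N (n + 1),
        Measure.isProbabilityMeasure_map (hm n).aemeasurable⟩, fun _ _ => rfl⟩
    · exact ⟨⟨Measure.dirac 0, inferInstance⟩, fun h' => absurd h' h⟩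
  choose κ hκ using hex
  let g : ProbabilityMeasure ℝ := ⟨ProbabilityTheory.gaussianReal 0 1, inferInstance⟩
  have key : Tendsto κ atTop (𝓝 g) := by
    rw [ProbabilityMeasure.tendsto_iff_tendsto_charFun]
    intro t
    have hg : charFun (g : Measure ℝ) t = ((Real.exp (-(t ^ 2 / 2)) : ℝ) : ℂ) := by
      change charFun (ProbabilityTheory.gaussianReal 0 1) t = _
      rw [ProbabilityTheory.charFun_gaussianReal]
      push_cast
      congr 1
      simp
    rw [hg, Metric.tendsto_atTop]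
    intro ε hε
    obtain ⟨n0, hn0⟩ := hchar t (ε / 2) (half_pos hε)
    refine ⟨n0 + N + 2, fun n hn => ?_⟩
    have h3 := hn0 (n + 1) (by omega)
    rw [dist_eq_norm]
    refine lt_of_le_of_lt ?_ (half_lt_self hε)
    refine le_trans (le_of_eq ?_) h3
    congr 2
    rw [charFun_apply_real, hκ n (by omega) (by omega), integral_map (hm n).aemeasurable
      (by fun_prop : Continuous fun x : ℝ => Complex.exp (t * x * Complex.I)).aestronglyMeasurable,
      hsd (n + 1) (by omega) (by omega)]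
    refine integral_congr_ae (Eventually.of_forall fun φ => ?_)
    simp only
    congr 2
    push_cast
    ring
  have h4 := (ProbabilityMeasure.tendsto_iff_forall_integral_tendsto.1 key) f
  refine Tendsto.congr' ?_ h4
  filter_upwards [eventually_ge_atTop (N + 2)] with n hn
  rw [hκ n (by omega) (by omega), integral_map (hm n).aemeasurable
    f.continuous.aestronglyMeasurable]

end HK
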