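import Mathlib
import Pool.Agent.Lib_helper69.HKL.DefsL
import Pool.Agent.Lib_helper69.HKL.W.la
import Pool.Agent.Lib_helper69.HKL.W.lb
import Pool.Agent.Lib_helper69.HKL.W.lc
import Pool.Agent.Lib_helper69.HKL.W.lf
import Pool.Agent.Lib_helper69.HKL.W.mc
import Pool.Agent.Lib_helper69.HKL.W.xx
import Pool.Agent.Lib_helper69.QG.Final
import Pool.Agent.Lib_helper69.HKL.GenCLT

/-!
# Project HK (MP_5fc650_pr): assembly.
-/

set_option autoImplicit false

namespace HK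

open MeasureTheory QG Filter Topology

/-- the scale -/
theorem scale_h (N0 : ℕ) (hN : 128 ≤ N0) : ∃ K : ℕ, 3 ≤ K ∧ 16 * 2 ^ K ≤ N0 ∧ N0 < 32 * 2 ^ K := by
  have h8 : 7 ≤ Nat.log 2 N0 := by
    have h := Nat.log_mono_right (b := 2) hN
    have h2 : Nat.log 2 128 = 7 := by
      rw [show (128 : ℕ) = 2 ^ 7 by norm_num]
      exact Nat.log_pow (by norm_num) 7
    omega
  refine ⟨Nat.log 2 N0 - 4, by omega, ?_, ?_⟩
  · have h1 : 2 ^ (Nat.log 2 N0) ≤ N0 := Nat.pow_log_le_self 2 (by omega)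
    have h2 : 16 * 2 ^ (Nat.log 2 N0 - 4) = 2 ^ (Nat.log 2 N0) := by
      rw [show (16 : ℕ) = 2 ^ 4 by norm_num, ← pow_add]
      congr 1; omega
    omega
  · have h1 : N0 < 2 ^ (Nat.log 2 N0 + 1) := Nat.lt_pow_succ_log_self (by norm_num) N0
    have h2 : 32 * 2 ^ (Nat.log 2 N0 - 4) = 2 ^ (Nat.log 2 N0 + 1) := by
      rw [show (32 : ℕ) = 2 ^ 5 by norm_num, ← pow_add]
      congr 1; omega
    omega

/-- the geometry for the torus of size `n` -/
theorem geo_h : ∃ Cg : ℝ, 1 ≤ Cg ∧ ∀ (n m K : ℕ), 1 ≤ m → 3 ≤ K → 16 * 2 ^ K ≤ n / (8 * m) →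
    n / (8 * m) < 32 * 2 ^ K →
    AGeo (TT n m) (Ez (TT n m)) K Cg
      ![(0, 0), (((n / (2 * m) : ℕ) : ℤ), ((n / (2 * m) : ℕ) : ℤ))]
      ![di (0, 0), di (((n / (2 * m) : ℕ) : ℤ), ((n / (2 * m) : ℕ) : ℤ))]
      ![bx (0, 0), bx (((n / (2 * m) : ℕ) : ℤ), ((n / (2 * m) : ℕ) : ℤ))] := by
  obtain ⟨Cg, hCg, H⟩ := ageo_planar
  refine ⟨Cg, hCg, ?_⟩
  intro n m K hm hK h1 h2
  have hK8 : 8 ≤ 2 ^ K := by
    calc 8 = 2 ^ 3 := by norm_num
      _ ≤ 2 ^ K := Nat.pow_le_pow_right (by norm_num) hK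
  -- D = n / (2 m), N0 = n / (8 m)
  have hD : n / (8 * m) = n / (2 * m) / 4 := by
    rw [Nat.div_div_eq_div_mul]; congr 1; ring
  have hr : n / (32 * m) = n / (8 * m) / 4 := by
    rw [Nat.div_div_eq_div_mul]; congr 1; ring
  have hN1 : 5 * (n / (8 * m)) ≤ 5 * n / (8 * m) := Nat.mul_div_le_mul_div_assoc 5 n (8 * m)
  have hp1 : 2 ^ (K + 1) = 2 * 2 ^ K := by ring
  have hp2 : 2 ^ (K + 2) = 4 * 2 ^ K := by ring
  have hp8 : 2 ^ (K + 8) = 256 * 2 ^ K := by ring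
  unfold TT LamI
  refine H K (n / (2 * m)) _ _ hK ?_ ?_ ?_ ?_
  · omega
  · omega
  · have : ((2 : ℤ) ^ (K + 2)) = ((2 ^ (K + 2) : ℕ) : ℤ) := by push_cast; rfl
    rw [this, hp2, hr]
    omega
  · have : ((2 : ℤ) ^ (K + 2)) = ((2 ^ (K + 2) : ℕ) : ℤ) := by push_cast; rfl
    rw [this, hp2, hr]
    omega

theorem kf_meas (n m : ℕ) (k : ℤ × ℤ) : Measurable fun a : Ev n → ℝ => kf n m a k := by
  unfold kf
  fun_prop

/-- the field on the `K`-sites is bounded -/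
theorem kf_bdd (n m : ℕ) [NeZero n] : ∃ B : ℝ, ∀ᵐ a ∂muh n 0, ∀ k : ℤ × ℤ, |kf n m a k| ≤ B := by
  refine ⟨2 * (Finset.univ.sup (fun y => lv n y (pp n)) : ℕ), ?_⟩
  filter_upwards [muh_lip n] with a ha k
  have h1 := ha.2 (ke n m k) (pp n)
  rw [ha.1, sub_zero] at h1
  refine h1.trans ?_
  have h2 : lv n (ke n m k) (pp n) ≤ Finset.univ.sup (fun y => lv n y (pp n)) :=
    Finset.le_sup (f := fun y => lv n y (pp n)) (Finset.mem_univ _)
  have h3 : ((lv n (ke n m k) (pp n) : ℕ) : ℝ) ≤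
      ((Finset.univ.sup (fun y => lv n y (pp n)) : ℕ) : ℝ) := by exact_mod_cast h2
  linarith

/-- the two centres are the `K`-sites next to `0` and `(n, n)` -/
theorem centre_h (n m : ℕ) [NeZero n] (hm : 1 ≤ m) {a : Ev n → ℝ}
    (ha : ∀ x y, |a x - a y| ≤ 2 * (lv n x y : ℝ)) :
    |(a (dg n n) - a (dg n 0)) - (kf n m a (((n / (2 * m) : ℕ) : ℤ), ((n / (2 * m) : ℕ) : ℤ)) -
      kf n m a (0, 0))| ≤ 4 * m := by
  have h0 : ke n m (0, 0) = dg n 0 := by
    apply Subtype.ext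
    simp [ke, dg]
  have h1 : ke n m (((n / (2 * m) : ℕ) : ℤ), ((n / (2 * m) : ℕ) : ℤ)) =
      dg n (2 * m * (n / (2 * m))) := by
    apply Subtype.ext
    have e : ((2 * m * ((n / (2 * m) : ℕ) : ℤ) : ℤ) : ZMod (2 * n)) =
        ((2 * m * (n / (2 * m)) : ℕ) : ZMod (2 * n)) := by
      simp only [Int.cast_mul, Int.cast_natCast, Nat.cast_mul, Int.cast_ofNat, Nat.cast_ofNat]
    simp only [ke, dg, e]
  unfold kf
  rw [h0, h1]
  have h2 : (a (dg n n) - a (dg n 0)) - (a (dg n (2 * m * (n / (2 * m)))) - a (dg n 0)) =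
      a (dg n n) - a (dg n (2 * m * (n / (2 * m)))) := by ring
  rw [h2]
  refine (ha _ _).trans ?_
  have h3 : lv n (dg n n) (dg n (2 * m * (n / (2 * m)))) ≤ 2 * m := by
    set q := 2 * m * (n / (2 * m)) with hq
    have hle : q ≤ n := Nat.mul_div_le n (2 * m)
    have hlt : n < q + 2 * m := by
      have := Nat.lt_mul_div_succ n (by omega : 0 < 2 * m)
      rw [Nat.mul_add, Nat.mul_one] at this
      exact this
    have e : ((q : ZMod (2 * n)) - (n : ZMod (2 * n))).valMinAbs.natAbs ≤ n - q := by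
      have h4 : ((q : ZMod (2 * n)) - (n : ZMod (2 * n))) = -(((n - q : ℕ)) : ZMod (2 * n)) := by
        rw [Nat.cast_sub hle]; ring
      rw [h4, ZMod.natAbs_valMinAbs_neg, ZMod.valMinAbs_natCast_of_le_half (by omega)]
      simp
    unfold lv
    simp only [dg]
    omega
  have h4 : ((lv n (dg n n) (dg n (2 * m * (n / (2 * m)))) : ℕ) : ℝ) ≤ 2 * m := by
    exact_mod_cast h3
  linarith

/-- the scale and the logarithm -/
theorem log_scale (n m K : ℕ) (hm : 1 ≤ m) (hK : 256 * m ≤ K) (h1 : 16 * 2 ^ K ≤ n / (8 * m))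
    (h2 : n / (8 * m) < 32 * 2 ^ K) :
    (K : ℝ) * Real.log 2 ≤ Real.log n ∧ Real.log n ≤ 2 * K ∧ 1 ≤ Real.log n := by
  have hl2 : Real.log 2 ≤ 1 := by linarith [Real.log_two_lt_d9]
  have hl2' : (1 : ℝ) / 2 ≤ Real.log 2 := by linarith [Real.log_two_gt_d9]
  have hn1 : 2 ^ K ≤ n := by
    have := Nat.div_le_self n (8 * m)
    have h3 : 2 ^ K ≤ 16 * 2 ^ K := by omega
    omega
  have hn2 : n < 256 * m * 2 ^ K := by
    have h3 : n < 8 * m * (n / (8 * m) + 1) := Nat.lt_mul_div_succ n (by omega)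
    have h4 : 8 * m * (n / (8 * m) + 1) ≤ 8 * m * (32 * 2 ^ K) := Nat.mul_le_mul_left _ h2
    calc n < 8 * m * (n / (8 * m) + 1) := h3
      _ ≤ 8 * m * (32 * 2 ^ K) := h4
      _ = 256 * m * 2 ^ K := by ring
  have hn0 : (0 : ℝ) < n := by
    have : 0 < 2 ^ K := by positivity
    exact_mod_cast lt_of_lt_of_le this hn1
  have l1 : (K : ℝ) * Real.log 2 ≤ Real.log n := by
    have h3 : ((2 : ℝ) ^ K) ≤ n := by exact_mod_cast hn1
    have := Real.log_le_log (by positivity) h3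
    rwa [Real.log_pow] at this
  have hKr : (256 : ℝ) * m ≤ K := by exact_mod_cast hK
  have hmr : (1 : ℝ) ≤ m := by exact_mod_cast hm
  refine ⟨l1, ?_, by nlinarith⟩
  have h3 : (n : ℝ) ≤ 256 * m * 2 ^ K := by exact_mod_cast hn2.le
  have h4 := Real.log_le_log hn0 h3
  rw [Real.log_mul (by positivity) (by positivity), Real.log_pow] at h4
  have h5 : Real.log (256 * m) ≤ 256 * m - 1 := Real.log_le_sub_one_of_pos (by positivity)
  nlinarith

/-- the power of `n` and the scales -/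
theorem pow_scale {n J K ki ko : ℕ} (hJ : 1 ≤ J) (hn : 1 ≤ n) (hk : ki ≤ ko)
    (hlog : Real.log n ≤ 2 * K) (h : (K : ℝ) / (2 * J ^ 5) ≤ (ko : ℝ) - ki) :
    (n : ℝ) ^ (Real.log 2 / (4 * J ^ 5)) * ((2 ^ ki : ℕ) : ℝ) ≤ ((2 ^ ko : ℕ) : ℝ) := by
  have hl2 : 0 < Real.log 2 := Real.log_pos (by norm_num)
  have hn0 : (0 : ℝ) < n := by exact_mod_cast hn
  have hJr : (1 : ℝ) ≤ J := by exact_mod_cast hJ
  have h1 : (n : ℝ) ^ (Real.log 2 / (4 * J ^ 5)) ≤ Real.exp (Real.log 2 * ((ko : ℝ) - ki)) := by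
    rw [Real.rpow_def_of_pos hn0]
    refine Real.exp_le_exp.2 ?_
    calc Real.log n * (Real.log 2 / (4 * J ^ 5)) ≤ 2 * K * (Real.log 2 / (4 * J ^ 5)) :=
          mul_le_mul_of_nonneg_right hlog (by positivity)
      _ = Real.log 2 * (K / (2 * J ^ 5)) := by field_simp; ring
      _ ≤ _ := mul_le_mul_of_nonneg_left h hl2.le
  have h2 : Real.exp (Real.log 2 * ((ko : ℝ) - ki)) * ((2 ^ ki : ℕ) : ℝ) = ((2 ^ ko : ℕ) : ℝ) := by
    push_cast
    have e1 : ((2 : ℝ) ^ ki) = Real.exp (Real.log 2 * ki) := by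
      rw [Real.exp_mul, Real.exp_log (by norm_num), Real.rpow_natCast]
    have e2 : ((2 : ℝ) ^ ko) = Real.exp (Real.log 2 * ko) := by
      rw [Real.exp_mul, Real.exp_log (by norm_num), Real.rpow_natCast]
    rw [e1, e2, ← Real.exp_add]
    congr 1; ring
  calc _ ≤ Real.exp (Real.log 2 * ((ko : ℝ) - ki)) * ((2 ^ ki : ℕ) : ℝ) :=
        mul_le_mul_of_nonneg_right h1 (by positivity)
    _ = _ := h2

/-- large tori have a large scale -/
theorem big_scale (m Kmin : ℕ) (hm : 1 ≤ m) : ∃ n0 : ℕ, ∀ n : ℕ, n0 ≤ n →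
    ∃ K : ℕ, 3 ≤ K ∧ Kmin ≤ K ∧ 256 * m ≤ K ∧ 16 * 2 ^ K ≤ n / (8 * m) ∧ n / (8 * m) < 32 * 2 ^ K := by
  refine ⟨8 * m * (32 * 2 ^ (Kmin + 256 * m + 7)), fun n hn => ?_⟩
  have h1 : 32 * 2 ^ (Kmin + 256 * m + 7) ≤ n / (8 * m) := by
    rw [Nat.le_div_iff_mul_le (by omega)]
    rw [mul_comm]
    exact hn
  have hp : 128 ≤ 32 * 2 ^ (Kmin + 256 * m + 7) := by
    have : 2 ^ 7 ≤ 2 ^ (Kmin + 256 * m + 7) := Nat.pow_le_pow_right (by norm_num) (by omega)
    omega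
  obtain ⟨K, hK, h2, h3⟩ := scale_h (n / (8 * m)) (by omega)
  have h4 : 2 ^ (Kmin + 256 * m + 7) < 2 ^ K := by omega
  have h5 := (Nat.pow_lt_pow_iff_right (by norm_num : 1 < 2)).1 h4
  exact ⟨K, hK, by omega, by omega, h2, h3⟩

theorem muh_int (n : ℕ) [NeZero n] {F : (Ev n → ℝ) → ℝ} (hF : Measurable F)
    (h : ∀ B : ℝ, ∃ C : ℝ, ∀ a : Ev n → ℝ, (∀ y, |a y| ≤ B) → |F a| ≤ C) :
    Integrable F (muh n 0) := by
  haveI := muh_prob n
  obtain ⟨C, hC⟩ := h (2 * (Finset.univ.sup (fun y => lv n y (pp n)) : ℕ))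
  refine Integrable.of_bound hF.aestronglyMeasurable C ?_
  filter_upwards [muh_lip n] with a ha
  refine hC a fun y => ?_
  have h1 := ha.2 y (pp n)
  rw [ha.1, sub_zero] at h1
  refine h1.trans ?_
  have h2 : lv n y (pp n) ≤ Finset.univ.sup (fun y => lv n y (pp n)) :=
    Finset.le_sup (f := fun y => lv n y (pp n)) (Finset.mem_univ _)
  have h3 : ((lv n y (pp n) : ℕ) : ℝ) ≤
      ((Finset.univ.sup (fun y => lv n y (pp n)) : ℕ) : ℝ) := by exact_mod_cast h2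
  linarith

/-- the characteristic function of the height difference -/
theorem char_h (τ : ℝ) {δ : ℝ} (hδ : 0 < δ) : ∃ n0 : ℕ, ∀ (n : ℕ) [NeZero n], n0 ≤ n →
    ‖∫ a, Complex.exp ((τ / Real.sqrt (∫ a, (a (dg n n) - a (dg n 0)) ^ 2 ∂muh n 0) *
        (a (dg n n) - a (dg n 0)) : ℝ) * Complex.I) ∂muh n 0 -
      (Real.exp (-(τ ^ 2 / 2)) : ℝ)‖ ≤ δ := by
  obtain ⟨m, p0, n0, hyp⟩ := hyp_exists
  obtain ⟨C, n1', hC, hmom⟩ := moments_h m p0
  obtain ⟨c, n3, hc, hlow⟩ := lower_h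
  obtain ⟨Cg, hCg, hgeo⟩ := geo_h
  have hl2 : 0 < Real.log 2 := Real.log_pos (by norm_num)
  have hl2' : (1 : ℝ) / 2 ≤ Real.log 2 := by linarith [Real.log_two_gt_d9]
  obtain ⟨J, T0, ε, K0, hJ, hT0, hε, hclt⟩ := abs_clt hCg hC (mul_pos hc hl2)
    (by positivity : (0 : ℝ) ≤ 4 * m) τ hδ
  have hJr : (2 : ℝ) ≤ J := by exact_mod_cast hJ
  obtain ⟨n2, hdec⟩ := decouple_h m p0 (J := 8 * J * Cg) (T0 := 2 * T0) (ε := ε)
    (α := Real.log 2 / (4 * J ^ 5)) hε (by positivity)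
  -- `m` is positive
  have hm : 1 ≤ m := by
    haveI : NeZero (n0 + 1) := ⟨by omega⟩
    have := (hyp (n0 + 1) (by omega)).two
    omega
  obtain ⟨n4, hscale⟩ := big_scale m K0 hm
  refine ⟨n0 + n1' + n2 + n3 + n4 + 1, ?_⟩
  intro n _ hn
  have H := hyp n (by omega)
  obtain ⟨K, hK3, hKK, hKm, hs1, hs2⟩ := hscale n (by omega)
  obtain ⟨g1, g2, g3⟩ := log_scale n m K hm hKm hs1 hs2
  have hG := hgeo n m K hm hK3 hs1 hs2
  haveI := muh_prob n
  have hKr : (3 : ℝ) ≤ K := by exact_mod_cast hK3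
  have hK0 : (0 : ℝ) < K := by linarith
  have hlog0 : 0 < Real.log n := by linarith
  refine hclt hG hKK (Y := fun a => kf n m a) (X := fun a => a (dg n n) - a (dg n 0))
    (fun k _ => kf_meas n m k) (diff_meas _ _) ?_ ?_ ?_ ?_ ?_ ?_ ?_
  · obtain ⟨B, hB⟩ := kf_bdd n m
    exact ⟨B, hB.mono fun a ha k _ => ha k⟩
  · filter_upwards [muh_lip n] with a ha
    simpa using centre_h n m hm ha.2
  · exact muh_odd n (diff_meas _ _) fun a => by simp only [Pi.neg_apply]; ring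
  · intro k _
    exact muh_odd n (kf_meas n m k) fun a => by simp [kf]
  · intro l R hR hl
    exact hmom n (by omega) H l R hR hl
  · have := hlow n (by omega)
    nlinarith
  · intro s ki ko hk hko hkd lin lout hin hin0 hin1 hout hout1 hoE t ht u F hu hF
    have hr : ∀ z : ℤ × ℤ, (z = (0, 0) ∨ z = (((n / (2 * m) : ℕ) : ℤ), ((n / (2 * m) : ℕ) : ℤ))) →
        (∀ k, lin k ≠ 0 → k ∈ TT n m ∧ di z k ≤ 2 ^ ki) →
        (∀ k, lout k ≠ 0 → k ∈ TT n m ∧ 2 ^ ko ≤ di z k) →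
        |∫ a, u (t * pv (TT n m) lout (kf n m a)) * F (t * pv (TT n m) lin (kf n m a)) ∂muh n 0 -
          (∫ a, u (t * pv (TT n m) lout (kf n m a)) ∂muh n 0) *
            ∫ a, F (t * pv (TT n m) lin (kf n m a)) ∂muh n 0| ≤ ε := by
      intro z hz hin' hout'
      have hpw := pow_scale (by omega : 1 ≤ J) (by omega : 1 ≤ n) hk g2 hkd
      have hko2 : 2 ^ ko ≤ 2 ^ K := Nat.pow_le_pow_right (by norm_num) hko
      refine hdec n (by omega) H z hz (2 ^ ki) (2 ^ ko) Nat.one_le_two_pow hpw (by omega) lin lout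
        hin' hin0 hin1 hout' ?_ ?_ t ?_ u F hu hF
      · refine hout1.trans ?_
        nlinarith
      · intro h
        refine (hoE h).trans ?_
        have hE : 0 ≤ Ez (TT n m) h := hG.nonneg h
        have h1 : 4 * (J : ℝ) * Cg * K ≤ 8 * J * Cg * Real.log n := by
          have h2 : (K : ℝ) ≤ 2 * Real.log n := by nlinarith
          have h3 : 0 ≤ 4 * (J : ℝ) * Cg := by positivity
          nlinarith
        exact mul_le_mul_of_nonneg_right h1 hE
      · refine ht.trans ?_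
        rw [div_le_div_iff₀ (Real.sqrt_pos.2 hK0) (Real.sqrt_pos.2 hlog0)]
        have h1 : Real.sqrt (Real.log n) ≤ 2 * Real.sqrt K := by
          rw [show (2 : ℝ) * Real.sqrt K = Real.sqrt (4 * K) by
            rw [Real.sqrt_mul (by norm_num), show (4 : ℝ) = 2 ^ 2 by norm_num,
              Real.sqrt_sq (by norm_num)]]
          exact Real.sqrt_le_sqrt (by linarith)
        calc T0 * Real.sqrt (Real.log n) ≤ T0 * (2 * Real.sqrt K) :=
              mul_le_mul_of_nonneg_left h1 hT0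
          _ = 2 * T0 * Real.sqrt K := by ring
    fin_cases s
    · exact hr (0, 0) (Or.inl rfl) hin hout
    · exact hr _ (Or.inr rfl) hin hout

/-- the difference of the heights at the two centres as a functional -/
theorem pv_diff {V : Type} [DecidableEq V] (S : Finset V) {z1 z0 : V} (h1 : z1 ∈ S) (h0 : z0 ∈ S)
    (h : V → ℝ) : pv S (fun k => (if k = z1 then (1 : ℝ) else 0) - (if k = z0 then (1 : ℝ) else 0)) h =
      h z1 - h z0 := by
  unfold pv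
  simp only [sub_mul, Finset.sum_sub_distrib, ite_mul, one_mul, zero_mul, Finset.sum_ite_eq',
    h1, h0, if_true]

theorem n1_diff {V : Type} [DecidableEq V] (S : Finset V) {z1 z0 : V} (h1 : z1 ∈ S) (h0 : z0 ∈ S) :
    n1 S (fun k => (if k = z1 then (1 : ℝ) else 0) - (if k = z0 then (1 : ℝ) else 0)) ≤ 2 := by
  unfold n1
  calc _ ≤ ∑ k ∈ S, ((if k = z1 then (1 : ℝ) else 0) + (if k = z0 then (1 : ℝ) else 0)) := by
        refine Finset.sum_le_sum fun k _ => ?_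
        refine (abs_sub _ _).trans (le_of_eq ?_)
        rw [abs_of_nonneg (by split_ifs <;> norm_num), abs_of_nonneg (by split_ifs <;> norm_num)]
    _ = 2 := by
        rw [Finset.sum_add_distrib, Finset.sum_ite_eq' S z1, Finset.sum_ite_eq' S z0, if_pos h1,
          if_pos h0]
        norm_num

theorem ageo_diff {V : Type} {S : Finset V} {E : (V → ℝ) → ℝ} {K : ℕ} {Cg : ℝ} {z : Fin 2 → V}
    {lev : Fin 2 → V → ℕ} {ph : Fin 2 → ℕ → V → ℝ} (hG : AGeo S E K Cg z lev ph) (hK : 2 ≤ K)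
    (h : V → ℝ) : (h (z 1) - h (z 0)) ^ 2 ≤ 5 * Cg * (3 + 2 * K) * E h := by
  have e0 := hG.near 0 h
  have e1 := hG.near 1 h
  have s0 := hG.step 0 0 (K - 2) (Nat.zero_le _) (by omega) h
  have s1 := hG.step 1 0 (K - 2) (Nat.zero_le _) (by omega) h
  have l := hG.last h
  have hE := hG.nonneg h
  have hC := hG.one_le
  have hk : (((K - 2 : ℕ) : ℝ) - ((0 : ℕ) : ℝ)) ≤ K := by
    rw [Nat.cast_sub hK]; push_cast; linarith
  have hs : Cg * (((K - 2 : ℕ) : ℝ) - ((0 : ℕ) : ℝ)) * E h ≤ Cg * K * E h :=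
    mul_le_mul_of_nonneg_right (mul_le_mul_of_nonneg_left hk (by linarith)) hE
  set A0 := pv S (ph 0 0) h
  set A1 := pv S (ph 1 0) h
  set B0 := pv S (ph 0 (K - 2)) h
  set B1 := pv S (ph 1 (K - 2)) h
  have key : (h (z 1) - h (z 0)) ^ 2 ≤ 5 * ((h (z 1) - A1) ^ 2 + (A1 - B1) ^ 2 + (B0 - B1) ^ 2 +
      (A0 - B0) ^ 2 + (h (z 0) - A0) ^ 2) := by
    have hh : h (z 1) - h (z 0) = (h (z 1) - A1) + (A1 - B1) - (B0 - B1) - (A0 - B0) -
        (h (z 0) - A0) := by ring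
    rw [hh]
    set a := h (z 1) - A1
    set b := A1 - B1
    set c := B0 - B1
    set d := A0 - B0
    set e := h (z 0) - A0
    nlinarith [sq_nonneg (a - b), sq_nonneg (a + c), sq_nonneg (a + d), sq_nonneg (a + e),
      sq_nonneg (b + c), sq_nonneg (b + d), sq_nonneg (b + e), sq_nonneg (c - d),
      sq_nonneg (c - e), sq_nonneg (d - e)]
  nlinarith

/-- the variance of the height difference -/
theorem var_h : ∃ (c C : ℝ) (n0 : ℕ), 0 < c ∧ ∀ (n : ℕ) [NeZero n], n0 ≤ n →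
    c * Real.log n ≤ ∫ a, (a (dg n n) - a (dg n 0)) ^ 2 ∂muh n 0 ∧
      ∫ a, (a (dg n n) - a (dg n 0)) ^ 2 ∂muh n 0 ≤ C * Real.log n := by
  classical
  obtain ⟨m, p0, n0, hyp⟩ := hyp_exists
  obtain ⟨C, n1', hC, hmom⟩ := moments_h m p0
  obtain ⟨c, n3, hc, hlow⟩ := lower_h
  obtain ⟨Cg, hCg, hgeo⟩ := geo_h
  have hl2' : (1 : ℝ) / 2 ≤ Real.log 2 := by linarith [Real.log_two_gt_d9]
  have hm : 1 ≤ m := by
    have hz : NeZero (n0 + 1) := ⟨by omega⟩
    have := (hyp (n0 + 1) (by omega)).two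
    omega
  obtain ⟨n4, hscale⟩ := big_scale m 0 hm
  refine ⟨c, 2 * (4 * m) ^ 2 + 2 * (C * (5 * Cg * 7 + 4)), n0 + n1' + n3 + n4 + 1, hc, ?_⟩
  intro n _ hn
  refine ⟨hlow n (by omega), ?_⟩
  have H := hyp n (by omega)
  obtain ⟨K, hK3, -, hKm, hs1, hs2⟩ := hscale n (by omega)
  obtain ⟨g1, g2, g3⟩ := log_scale n m K hm hKm hs1 hs2
  have hG := hgeo n m K hm hK3 hs1 hs2
  have hprob := muh_prob n
  set z1 : ℤ × ℤ := (((n / (2 * m) : ℕ) : ℤ), ((n / (2 * m) : ℕ) : ℤ)) with hz1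
  have hz1S : z1 ∈ TT n m := hG.mem 1
  have hz0S : ((0, 0) : ℤ × ℤ) ∈ TT n m := hG.mem 0
  have hKr : (3 : ℝ) ≤ K := by exact_mod_cast hK3
  have hR : (0 : ℝ) ≤ 5 * Cg * (3 + 2 * K) := by positivity
  have h1 := (hmom n (by omega) H _ (5 * Cg * (3 + 2 * K)) hR (fun h => by
    rw [pv_diff _ hz1S hz0S]; exact ageo_diff hG (by omega) h)).1
  have h2 : ∀ a : Ev n → ℝ, pv (TT n m) (fun k => (if k = z1 then (1 : ℝ) else 0) -
      (if k = (0, 0) then (1 : ℝ) else 0)) (kf n m a) = kf n m a z1 - kf n m a (0, 0) := fun a =>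
    pv_diff _ hz1S hz0S _
  simp only [h2] at h1
  have h3 := n1_diff (TT n m) hz1S hz0S
  have h30 : 0 ≤ n1 (TT n m) (fun k => (if k = z1 then (1 : ℝ) else 0) -
      (if k = (0, 0) then (1 : ℝ) else 0)) := Finset.sum_nonneg fun _ _ => abs_nonneg _
  have h4 : n1 (TT n m) (fun k => (if k = z1 then (1 : ℝ) else 0) -
      (if k = (0, 0) then (1 : ℝ) else 0)) ^ 2 ≤ 4 := by nlinarith
  have hKl : (K : ℝ) ≤ 2 * Real.log n := by nlinarith
  have h5 : ∫ a, (kf n m a z1 - kf n m a (0, 0)) ^ 2 ∂muh n 0 ≤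
      C * (5 * Cg * 7 + 4) * Real.log n := by
    refine h1.trans ?_
    have h6 : 5 * Cg * (3 + 2 * K) + n1 (TT n m) (fun k => (if k = z1 then (1 : ℝ) else 0) -
        (if k = (0, 0) then (1 : ℝ) else 0)) ^ 2 ≤ (5 * Cg * 7 + 4) * Real.log n := by
      have : 5 * Cg * (3 + 2 * K) ≤ 5 * Cg * 7 * Real.log n := by
        have : (3 : ℝ) + 2 * K ≤ 7 * Real.log n := by linarith
        nlinarith
      nlinarith
    calc _ ≤ C * ((5 * Cg * 7 + 4) * Real.log n) := mul_le_mul_of_nonneg_left h6 (by linarith)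
      _ = _ := by ring
  have hi1 : Integrable (fun a : Ev n → ℝ => (kf n m a z1 - kf n m a (0, 0)) ^ 2) (muh n 0) := by
    refine muh_int n (((kf_meas n m z1).sub (kf_meas n m (0, 0))).pow_const 2) fun B => ⟨(2 * B) ^ 2, ?_⟩
    intro a ha
    rw [abs_pow]
    refine pow_le_pow_left₀ (abs_nonneg _) ?_ 2
    refine (abs_sub _ _).trans ?_
    have := ha (ke n m z1)
    have := ha (ke n m (0, 0))
    unfold kf
    linarith
  calc ∫ a, (a (dg n n) - a (dg n 0)) ^ 2 ∂muh n 0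
      ≤ ∫ a, (2 * (4 * (m : ℝ)) ^ 2 + 2 * (kf n m a z1 - kf n m a (0, 0)) ^ 2) ∂muh n 0 := by
        refine integral_mono_of_nonneg (Eventually.of_forall fun a => sq_nonneg _)
          ((integrable_const _).add (hi1.const_mul 2)) ?_
        filter_upwards [muh_lip n] with a ha
        have h7 := centre_h n m hm ha.2
        rw [← hz1] at h7
        have h8 := abs_le.1 h7
        set x := a (dg n n) - a (dg n 0)
        set y := kf n m a z1 - kf n m a (0, 0)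
        change x ^ 2 ≤ 2 * (4 * (m : ℝ)) ^ 2 + 2 * y ^ 2
        have h9 : (x - y) ^ 2 ≤ (4 * (m : ℝ)) ^ 2 := by
          rw [← sq_abs (x - y)]
          exact pow_le_pow_left₀ (abs_nonneg _) h7 2
        nlinarith [sq_nonneg (x - 2 * y)]
    _ = 2 * (4 * (m : ℝ)) ^ 2 + 2 * ∫ a, (kf n m a z1 - kf n m a (0, 0)) ^ 2 ∂muh n 0 := by
        rw [integral_add (integrable_const _) (hi1.const_mul 2), integral_const, integral_const_mul]
        simp
    _ ≤ (2 * (4 * (m : ℝ)) ^ 2 + 2 * (C * (5 * Cg * 7 + 4))) * Real.log n := by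
        have : 2 * (4 * (m : ℝ)) ^ 2 ≤ 2 * (4 * (m : ℝ)) ^ 2 * Real.log n := by
          have h0 : (0 : ℝ) ≤ 2 * (4 * (m : ℝ)) ^ 2 := by positivity
          nlinarith
        nlinarith

/-- integrals of functions of the height of the hammock surface -/
theorem far_integral_h {E : Type} [NormedAddCommGroup E] [NormedSpace ℝ E] (n : ℕ) [NeZero n]
    {F : ℝ → E} (hF : StronglyMeasurable F) :
    ∫ φ, F (far n φ) ∂muHT n = ∫ a, F (a (dg n n) - a (dg n 0)) ∂muh n 0 := by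
  obtain ⟨_, h⟩ := far_law_h n
  rw [← integral_map (far_meas n).aemeasurable hF.aestronglyMeasurable, h,
    integral_map (diff_meas _ _).aemeasurable hF.aestronglyMeasurable]

/-- the hammock surface: Gaussian limit -/
theorem ham_clt : ∃ (a : ℕ → ℝ) (N : ℕ) (c C : ℝ), (∀ n, 0 < a n) ∧ 0 < c ∧
    (∀ (n : ℕ) [NeZero n], N ≤ n → a n ^ 2 = ∫ φ, far n φ ^ 2 ∂muHT n) ∧
    (∀ n : ℕ, N ≤ n → c * Real.log n ≤ a n ^ 2 ∧ a n ^ 2 ≤ C * Real.log n) ∧
    ∀ f : BoundedContinuousFunction ℝ ℝ,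
      Tendsto (fun n : ℕ => ∫ φ, f (far (n + 1) φ / a (n + 1)) ∂muHT (n + 1)) atTop
        (𝓝 (∫ x, f x ∂ProbabilityTheory.gaussianReal 0 1)) := by
  obtain ⟨c, C, n0, hc, hv⟩ := var_h
  have e : ∀ (n : ℕ) [NeZero n], ∫ φ, far n φ ^ 2 ∂muHT n =
      ∫ a, (a (dg n n) - a (dg n 0)) ^ 2 ∂muh n 0 := fun n _ =>
    far_integral_h n (F := fun x => x ^ 2)
      (by fun_prop : Continuous fun x : ℝ => x ^ 2).stronglyMeasurable
  obtain ⟨a, h1, h2, h3, h4⟩ := clt_of_char (fun n _ => muHT n) n0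
    (fun n _ _ => (far_law_h n).1) hc (C := C) (fun n _ hn => by rw [e n]; exact hv n hn)
    (fun τ δ hδ => by
      obtain ⟨n1', h⟩ := char_h τ hδ
      refine ⟨n1', fun n _ hn => ?_⟩
      have h5 := h n hn
      rw [e n, far_integral_h n (F := fun x : ℝ => Complex.exp ((τ / Real.sqrt
        (∫ a, (a (dg n n) - a (dg n 0)) ^ 2 ∂muh n 0) * x : ℝ) * Complex.I))
        (by fun_prop : Continuous _).stronglyMeasurable]
      exact h5)
  exact ⟨a, n0 + 2, c, C, h1, hc, fun n _ hn => h2 n (by omega) (by omega),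
    fun n hn => h3 n (by omega) (by omega), h4⟩

end HK
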